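import Pool.Agent.Gol.Main

set_option autoImplicit false

namespace Pool.Agent.Results.MP_51cb9b_co.PrimePowerBound

/-- For every `k ≥ 1` and every prime power `q ≥ k - 2` there is a Golomb ruler with `k` marks and
length at most `max (k ^ 2 - 1) ((k - 1) (q - 1))`. In particular `G(k) < k ^ 2` whenever some
prime power `q` satisfies `|q - k| ≤ 2`, and `G(k) ≤ (k - 1) (q - 1)` for every prime power
`q ≥ k + 2`. -/
theorem result :
    ∀ k q : ℕ, 0 < k → IsPrimePow q → k ≤ q + 2 →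
      ∃ A : Finset ℕ, A.card = k ∧ (∀ a ∈ A, a ≤ max (k ^ 2 - 1) ((k - 1) * (q - 1))) ∧
        ∀ a ∈ A, ∀ b ∈ A, ∀ c ∈ A, ∀ d ∈ A, a < b → c < d → b - a = d - c → a = c ∧ b = d := by
  intro k q hk hq h1
  rcases Nat.lt_or_ge (k + 2) q with h2 | h2
  · obtain ⟨A, hA, hL, hG⟩ := Pool.Agent.Gol.main_window q k hq hk (by omega)
    exact ⟨A, hA, fun a ha => le_trans (hL a ha) (le_max_right _ _), hG⟩
  · obtain ⟨A, hA, hL, hG⟩ := Pool.Agent.Gol.main_near q k hq hk h1 h2
    exact ⟨A, hA, fun a ha => le_trans (hL a ha) (le_max_left _ _), hG⟩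

end Pool.Agent.Results.MP_51cb9b_co.PrimePowerBound
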